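import Pool.Agent.H57.AR.Targets

/-!
# PALR: the palette of the types of elements and pairs
-/

set_option autoImplicit false

namespace Pool.Agent.H49.AR

open Pool.Agent.H68.BP Pool.Agent.H58.SF Pool.Agent.H53.GC Pool.Agent.H53.NR Pool.Agent.H53.GR
open Pool.Agent.H57.SO (Pal Col vt)
open Pool.Agent.H57.AR
open Function

section

variable {V : Type} {ρ : Sig}

/-- the type of a pair -/
def p2 (𝔹 : Str ρ V) (x y : V) : (l : Fin ρ.m) → (Fin (ρ.ar l) → Bool) → Prop :=
  fun l f => 𝔹 l (fun i => if f i then y else x)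

/-- the types of the elements -/
def PS (𝔹 : Str ρ V) : Type := {s : Fin ρ.m → Prop // ∃ x, ty 𝔹 x = s}

/-- the types of the pairs of different elements -/
def PX (𝔹 : Str ρ V) : Type :=
  {t : (l : Fin ρ.m) → (Fin (ρ.ar l) → Bool) → Prop // ∃ x y, x ≠ y ∧ p2 𝔹 x y = t}

/-- the type of a free pair -/
def frf (s s' : Fin ρ.m → Prop) : (l : Fin ρ.m) → (Fin (ρ.ar l) → Bool) → Prop :=
  fun l f => ((∀ i, f i = false) ∧ s l) ∨ ((∀ i, f i = true) ∧ s' l)

theorem p2_false (𝔹 : Str ρ V) (x y : V) : (fun l => p2 𝔹 x y l (fun _ => false)) = ty 𝔹 x := by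
  funext l
  simp [p2, ty]

theorem p2_true (𝔹 : Str ρ V) (x y : V) : (fun l => p2 𝔹 x y l (fun _ => true)) = ty 𝔹 y := by
  funext l
  simp [p2, ty]

theorem p2_swap (𝔹 : Str ρ V) (x y : V) :
    (fun (l : Fin ρ.m) (f : Fin (ρ.ar l) → Bool) => p2 𝔹 x y l (fun i => !f i)) = p2 𝔹 y x := by
  funext l f
  unfold p2
  have h : (fun i => if (!f i) = true then y else x) = fun i => if f i = true then x else y := by
    funext i
    cases f i <;> simp
  rw [h]

theorem p2_self (𝔹 : Str ρ V) (x : V) (l : Fin ρ.m) (f : Fin (ρ.ar l) → Bool) :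
    p2 𝔹 x x l f = ty 𝔹 x l := by
  simp [p2, ty]

theorem frf_false (har : ∀ l, 1 ≤ ρ.ar l) (s s' : Fin ρ.m → Prop) :
    (fun l => frf (ρ := ρ) s s' l (fun _ => false)) = s := by
  funext l
  apply propext
  unfold frf
  constructor
  · rintro (h | h)
    · exact h.2
    · exact absurd (h.1 ⟨0, har l⟩) (by simp)
  · intro h
    exact Or.inl ⟨fun _ => rfl, h⟩

theorem frf_true (har : ∀ l, 1 ≤ ρ.ar l) (s s' : Fin ρ.m → Prop) :
    (fun l => frf (ρ := ρ) s s' l (fun _ => true)) = s' := by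
  funext l
  apply propext
  unfold frf
  constructor
  · rintro (h | h)
    · exact absurd (h.1 ⟨0, har l⟩) (by simp)
    · exact h.2
  · intro h
    exact Or.inr ⟨fun _ => rfl, h⟩

theorem frf_swap (s s' : Fin ρ.m → Prop) :
    (fun (l : Fin ρ.m) (f : Fin (ρ.ar l) → Bool) => frf (ρ := ρ) s s' l (fun i => !f i)) =
      frf s' s := by
  funext l f
  apply propext
  unfold frf
  constructor
  · rintro (h | h)
    · exact Or.inr ⟨fun i => by simpa using h.1 i, h.2⟩
    · exact Or.inl ⟨fun i => by simpa using h.1 i, h.2⟩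
  · rintro (h | h)
    · exact Or.inr ⟨fun i => by simp [h.1 i], h.2⟩
    · exact Or.inl ⟨fun i => by simp [h.1 i], h.2⟩

/-- free pairs exist -/
theorem palr_ex [LinearOrder V] (𝔹 : Str ρ V) (M : ℕ) (hU : Univ 𝔹 M) (har : ∀ l, 1 ≤ ρ.ar l)
    (x y : V) : ∃ u v, u ≠ v ∧ p2 𝔹 u v = frf (ty 𝔹 x) (ty 𝔹 y) := by
  obtain ⟨XX, hXX⟩ : ∃ XX : Str ρ (Fin 2), XX = fun l z =>
      ((∀ i, z i = 0) ∧ 𝔹 l (fun _ => x)) ∨ ((∀ i, z i = 1) ∧ 𝔹 l (fun _ => y)) := ⟨_, rfl⟩
  have hX : ∀ l (z : Fin (ρ.ar l) → Fin 2), XX l z ↔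
      ((∀ i, z i = 0) ∧ 𝔹 l (fun _ => x)) ∨ ((∀ i, z i = 1) ∧ 𝔹 l (fun _ => y)) := by
    intro l z
    rw [hXX]
  have hOK : OK 𝔹 M XX := by
    intro m s _ hs hirr
    have hall : ∀ a b : Fin m, a = b := by
      intro a b
      by_contra h
      obtain ⟨l, z, hz, ⟨i, hi⟩, j, hj⟩ := hirr a b h
      apply h
      apply hs
      rw [← hi, ← hj]
      rcases (hX l (fun i => s (z i))).1 hz with h1 | h1
      · rw [h1.1 i, h1.1 j]
      · rw [h1.1 i, h1.1 j]
    by_cases hne : Nonempty (Fin m)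
    · obtain ⟨a₀⟩ := hne
      have hz : ∀ a, s a = s a₀ := fun a => by rw [hall a a₀]
      rcases Fin.exists_fin_two.1 ⟨s a₀, rfl⟩ with h0 | h0
      · refine ⟨fun _ => x, fun a b _ => hall a b, fun l z => ?_⟩
        show XX l (fun i => s (z i)) ↔ 𝔹 l (fun _ => x)
        rw [hX]
        constructor
        · rintro (h1 | h1)
          · exact h1.2
          · have h2 := h1.1 ⟨0, har l⟩
            rw [hz, h0] at h2
            exact absurd h2 (by decide)
        · intro h1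
          exact Or.inl ⟨fun i => (hz (z i)).trans h0, h1⟩
      · refine ⟨fun _ => y, fun a b _ => hall a b, fun l z => ?_⟩
        show XX l (fun i => s (z i)) ↔ 𝔹 l (fun _ => y)
        rw [hX]
        constructor
        · rintro (h1 | h1)
          · have h2 := h1.1 ⟨0, har l⟩
            rw [hz, h0] at h2
            exact absurd h2 (by decide)
          · exact h1.2
        · intro h1
          exact Or.inr ⟨fun i => (hz (z i)).trans h0, h1⟩
    · refine ⟨fun _ => x, fun a b _ => hall a b, fun l z => ?_⟩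
      exact absurd ⟨z ⟨0, har l⟩⟩ hne
  obtain ⟨f, -, hinj, hf⟩ := hU 2 XX hOK
  refine ⟨f 0, f 1, fun h => absurd (hinj h) (by decide), ?_⟩
  funext l g
  apply propext
  have h1 : (fun i => if g i = true then f 1 else f 0) =
      fun i => f (if g i = true then 1 else 0) := by
    funext i
    cases g i <;> simp
  have h2 : p2 𝔹 (f 0) (f 1) l g ↔ XX l (fun i => if g i = true then 1 else 0) := by
    unfold p2
    rw [h1]
    exact (hf l (fun i => if g i = true then 1 else 0)).symm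
  rw [h2, hX]
  unfold frf ty
  have h3 : (∀ i, (if g i = true then (1 : Fin 2) else 0) = 0) ↔ ∀ i, g i = false := by
    refine forall_congr' fun i => ?_
    cases g i <;> simp
  have h4 : (∀ i, (if g i = true then (1 : Fin 2) else 0) = 1) ↔ ∀ i, g i = true := by
    refine forall_congr' fun i => ?_
    cases g i <;> simp
  rw [h3, h4]

/-- the palette -/
def palR (𝔹 : Str ρ V) (har : ∀ l, 1 ≤ ρ.ar l)
    (hex : ∀ x y : V, ∃ u v, u ≠ v ∧ p2 𝔹 u v = frf (ty 𝔹 x) (ty 𝔹 y)) : Pal (PS 𝔹) (PX 𝔹) where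
  ls t := ⟨fun l => t.1 l (fun _ => false), by
    obtain ⟨x, y, -, h⟩ := t.2
    exact ⟨x, by rw [← h, p2_false]⟩⟩
  rs t := ⟨fun l => t.1 l (fun _ => true), by
    obtain ⟨x, y, -, h⟩ := t.2
    exact ⟨y, by rw [← h, p2_true]⟩⟩
  rv t := ⟨fun l f => t.1 l (fun i => !f i), by
    obtain ⟨x, y, hne, h⟩ := t.2
    exact ⟨y, x, hne.symm, by rw [← h, p2_swap]⟩⟩
  fr s s' := ⟨frf s.1 s'.1, by
    obtain ⟨x, hx⟩ := s.2
    obtain ⟨y, hy⟩ := s'.2
    obtain ⟨u, v, h1, h2⟩ := hex x y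
    exact ⟨u, v, h1, by rw [h2, hx, hy]⟩⟩
  ls_fr s s' := Subtype.ext (frf_false har s.1 s'.1)
  rs_fr s s' := Subtype.ext (frf_true har s.1 s'.1)
  rv_fr s s' := Subtype.ext (frf_swap s.1 s'.1)

open Classical in
/-- the colouring -/
noncomputable def colR (𝔹 : Str ρ V) (x y : V) : PS 𝔹 ⊕ PX 𝔹 :=
  if h : x = y then Sum.inl ⟨ty 𝔹 x, x, rfl⟩ else Sum.inr ⟨p2 𝔹 x y, x, y, h, rfl⟩

theorem colR_self (𝔹 : Str ρ V) (x : V) : colR 𝔹 x x = Sum.inl ⟨ty 𝔹 x, x, rfl⟩ := dif_pos rfl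

theorem colR_ne (𝔹 : Str ρ V) {x y : V} (h : x ≠ y) :
    colR 𝔹 x y = Sum.inr ⟨p2 𝔹 x y, x, y, h, rfl⟩ := dif_neg h

theorem colR_inr (𝔹 : Str ρ V) {x y : V} {t : PX 𝔹} (h : colR 𝔹 x y = Sum.inr t) :
    x ≠ y ∧ t.1 = p2 𝔹 x y := by
  by_cases hxy : x = y
  · subst hxy
    rw [colR_self] at h
    cases h
  · rw [colR_ne 𝔹 hxy] at h
    refine ⟨hxy, ?_⟩
    rw [← Sum.inr.inj h]

end

/-- PALR -/
theorem pf_PALR : T_PALR := by
  intro σ ρ V _ 𝔸 𝔹 M hB
  have har : ∀ l, 1 ≤ ρ.ar l := fun l => (hB.ar l).1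
  have hex := palr_ex 𝔹 M hB.univ har
  refine ⟨PS 𝔹, PX 𝔹, palR 𝔹 har hex, colR 𝔹, ?_, ?_, ⟨?_, ?_, ?_, ?_, ?_, ?_⟩, ?_, ?_⟩
  · unfold PS
    infer_instance
  · unfold PX
    infer_instance
  · intro x y
    constructor
    · rintro ⟨s, hs⟩
      by_contra h
      rw [colR_ne 𝔹 h] at hs
      cases hs
    · rintro rfl
      exact ⟨_, colR_self 𝔹 x⟩
  · intro x y t h
    obtain ⟨-, h2⟩ := colR_inr 𝔹 h
    rw [colR_self]
    refine congrArg Sum.inl (Subtype.ext ?_)
    show ty 𝔹 x = fun l => t.1 l (fun _ => false)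
    rw [h2, p2_false]
  · intro x y t h
    obtain ⟨-, h2⟩ := colR_inr 𝔹 h
    rw [colR_self]
    refine congrArg Sum.inl (Subtype.ext ?_)
    show ty 𝔹 y = fun l => t.1 l (fun _ => true)
    rw [h2, p2_true]
  · intro x y t h
    obtain ⟨h1, h2⟩ := colR_inr 𝔹 h
    rw [colR_ne 𝔹 h1.symm]
    refine congrArg Sum.inr (Subtype.ext ?_)
    show p2 𝔹 y x = fun l f => t.1 l (fun i => !f i)
    rw [h2, p2_swap]
  · rintro ⟨s, x, rfl⟩
    exact ⟨x, colR_self 𝔹 x⟩
  · rintro ⟨t, x, y, h, rfl⟩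
    exact ⟨x, y, colR_ne 𝔹 h⟩
  · intro x y x' y'
    show colR 𝔹 x y = colR 𝔹 x' y' ↔ ((x = y ↔ x' = y') ∧
      ∀ (l : Fin ρ.m) (f : Fin (ρ.ar l) → Bool), p2 𝔹 x y l f ↔ p2 𝔹 x' y' l f)
    by_cases h : x = y
    · subst h
      by_cases h' : x' = y'
      · subst h'
        rw [colR_self, colR_self]
        constructor
        · intro h1
          have h2 : ty 𝔹 x = ty 𝔹 x' := congrArg Subtype.val (Sum.inl.inj h1)
          refine ⟨by simp, fun l f => ?_⟩
          rw [p2_self, p2_self, h2]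
        · rintro ⟨-, h1⟩
          refine congrArg Sum.inl (Subtype.ext ?_)
          show ty 𝔹 x = ty 𝔹 x'
          funext l
          have h2 := h1 l (fun _ => false)
          rw [p2_self, p2_self] at h2
          exact propext h2
      · rw [colR_self, colR_ne 𝔹 h']
        constructor
        · intro h1
          cases h1
        · rintro ⟨h1, -⟩
          exact absurd (h1.1 rfl) h'
    · by_cases h' : x' = y'
      · subst h'
        rw [colR_self, colR_ne 𝔹 h]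
        constructor
        · intro h1
          cases h1
        · rintro ⟨h1, -⟩
          exact absurd (h1.2 rfl) h
      · rw [colR_ne 𝔹 h, colR_ne 𝔹 h']
        constructor
        · intro h1
          have h2 : p2 𝔹 x y = p2 𝔹 x' y' := congrArg Subtype.val (Sum.inr.inj h1)
          refine ⟨⟨fun h3 => absurd h3 h, fun h3 => absurd h3 h'⟩, fun l f => ?_⟩
          rw [h2]
        · rintro ⟨-, h1⟩
          refine congrArg Sum.inr (Subtype.ext ?_)
          show p2 𝔹 x y = p2 𝔹 x' y'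
          funext l f
          exact propext (h1 l f)
  · intro x y hxy
    show colR 𝔹 x y = _ ↔ ∀ (l : Fin ρ.m) (f : Fin (ρ.ar l) → Bool), p2 𝔹 x y l f →
      (∀ i, f i = true) ∨ ∀ i, f i = false
    have hvt : ∀ z, (vt (palR 𝔹 har hex) (colR 𝔹) z).1 = ty 𝔹 z := by
      intro z
      unfold vt
      rw [colR_self]
      rfl
    have hfr : ((palR 𝔹 har hex).fr (vt (palR 𝔹 har hex) (colR 𝔹) x)
        (vt (palR 𝔹 har hex) (colR 𝔹) y)).1 = frf (ty 𝔹 x) (ty 𝔹 y) := by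
      show frf (vt (palR 𝔹 har hex) (colR 𝔹) x).1 (vt (palR 𝔹 har hex) (colR 𝔹) y).1 = _
      rw [hvt, hvt]
    rw [colR_ne 𝔹 hxy]
    constructor
    · intro h1 l f h2
      have h3 : p2 𝔹 x y = frf (ty 𝔹 x) (ty 𝔹 y) := by
        rw [← hfr]
        exact congrArg Subtype.val (Sum.inr.inj h1)
      rw [h3] at h2
      rcases h2 with h2 | h2
      · exact Or.inr h2.1
      · exact Or.inl h2.1
    · intro h1
      refine congrArg Sum.inr (Subtype.ext ?_)
      rw [hfr]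
      show p2 𝔹 x y = frf (ty 𝔹 x) (ty 𝔹 y)
      funext l f
      apply propext
      have e1 : (∀ i, f i = false) → (p2 𝔹 x y l f ↔ ty 𝔹 x l) := by
        intro h2
        have h3 : f = fun _ => false := funext h2
        rw [h3]
        exact iff_of_eq (congrFun (p2_false 𝔹 x y) l)
      have e2 : (∀ i, f i = true) → (p2 𝔹 x y l f ↔ ty 𝔹 y l) := by
        intro h2
        have h3 : f = fun _ => true := funext h2
        rw [h3]
        exact iff_of_eq (congrFun (p2_true 𝔹 x y) l)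
      constructor
      · intro h2
        rcases h1 l f h2 with h3 | h3
        · exact Or.inr ⟨h3, (e2 h3).1 h2⟩
        · exact Or.inl ⟨h3, (e1 h3).1 h2⟩
      · rintro (h2 | h2)
        · exact (e1 h2.1).2 h2.2
        · exact (e2 h2.1).2 h2.2

end Pool.Agent.H49.AR
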